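import Pool.Agent.QSX.StmtsA
import Pool.Agent.QSX.StmtsG

/-!
# Row GAB of squad QSX: the gauge fixing
-/

set_option autoImplicit false

namespace Pool.Agent.QSX.H41

open Matrix Finset Pool.Agent.QSX

/-- a linear functional which vanishes on the cone of all roots is zero -/
theorem functional_zero {X : Dat} (hX : X.Split) (φ : X.b →ₗ[ℝ] ℝ)
    (h : ∀ a ∈ hX.dual Set.univ, φ a = 0) (a : X.b) : φ a = 0 := by
  obtain ⟨a₀, ha₀⟩ := hX.pos
  set T : ℝ := ∑ l : hX.ι, |hX.rt l a| / hX.rt l a₀ with hT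
  have h0 : a₀ ∈ hX.dual Set.univ := fun ν _ => (ha₀ ν).le
  have h1 : T • a₀ + a ∈ hX.dual Set.univ := by
    intro ν _
    rw [map_add, map_smul, smul_eq_mul]
    have h2 : |hX.rt ν a| / hX.rt ν a₀ ≤ T :=
      single_le_sum (f := fun l => |hX.rt l a| / hX.rt l a₀)
        (fun l _ => div_nonneg (abs_nonneg _) (ha₀ l).le) (mem_univ ν)
    rw [div_le_iff₀ (ha₀ ν)] at h2
    have h3 := neg_abs_le (hX.rt ν a)
    linarith
  have h2 := h _ h1
  rw [map_add, map_smul, h _ h0, smul_zero, zero_add] at h2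
  exact h2

section kp

variable {R : Type} [CommRing R] {m : ℕ} (q : Fin m → Fin m → Prop)

theorem kp_of {g : Matrix (Fin m) (Fin m) R} {i l : Fin m} (h : i = l ∨ q i l) :
    kp q g i l = g i l := by
  unfold kp
  exact if_pos h

theorem kp_not {g : Matrix (Fin m) (Fin m) R} {i l : Fin m} (h : ¬ (i = l ∨ q i l)) :
    kp q g i l = 0 := by
  unfold kp
  exact if_neg h

theorem kp_kp (g : Matrix (Fin m) (Fin m) R) : kp q (kp q g) = kp q g := by
  ext i l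
  by_cases h : i = l ∨ q i l
  · rw [kp_of q h]
  · rw [kp_not q h, kp_not q h]

theorem kp_part {V : Type} (P : V → Fin m → ℝ) (g : Matrix (Fin m) (Fin m) R) (ρ : V → ℝ)
    (hρ : ∀ a, ρ a = 0) : kp (fun i l => ∀ a, P a i - P a l = 0) g = part P ρ g := by
  ext i l
  by_cases h : ∀ a, P a i - P a l = 0
  · rw [kp_of _ (Or.inr h)]
    unfold part
    rw [if_pos]
    intro a
    rw [hρ a]
    exact h a
  · have h' : ¬ (i = l ∨ ∀ a, P a i - P a l = 0) := by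
      rintro (h1 | h1)
      · exact h fun a => by rw [h1, sub_self]
      · exact h h1
    rw [kp_not _ h']
    unfold part
    rw [if_neg]
    intro h2
    exact h fun a => by rw [h2 a, hρ a]

end kp

theorem gab (hL : LgmStmt) (hS : SptStmt) (hF : FcpStmt) (hP : PtfStmt) (hN : NflStmt)
    (hM : GmxStmt) : GabStmt := by
  intro X Y hX F _ _ P hPb ρ
  classical
  let r : Fin Y.m → Fin Y.m → Prop := fun i k => ∀ a ∈ hX.dual Set.univ, 0 ≤ P a i - P a k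
  let q : Fin Y.m → Fin Y.m → Prop := fun i k => ∀ a, P a i - P a k = 0
  have rtr : ∀ i j k, i < j → j < k → r i j → r j k → r i k := by
    intro i j k _ _ h1 h2 a ha
    have := h1 a ha
    have := h2 a ha
    linarith
  have face : ∀ i j k, i < j → j < k → r i j → r j k → (q i k ↔ q i j ∧ q j k) := by
    intro i j k _ _ h1 h2
    constructor
    · intro h
      have e1 : ∀ a ∈ hX.dual Set.univ, P a i - P a j = 0 := by
        intro a ha
        have := h1 a ha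
        have := h2 a ha
        have := h a
        linarith
      have e2 : ∀ a ∈ hX.dual Set.univ, P a j - P a k = 0 := by
        intro a ha
        have := h1 a ha
        have := h2 a ha
        have := h a
        linarith
      exact ⟨fun a => functional_zero hX ((LinearMap.proj i ∘ₗ P) - (LinearMap.proj j ∘ₗ P)) e1 a,
        fun a => functional_zero hX ((LinearMap.proj j ∘ₗ P) - (LinearMap.proj k ∘ₗ P)) e2 a⟩
    · rintro ⟨h3, h4⟩ a
      have := h3 a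
      have := h4 a
      linarith
  obtain ⟨G, π, hG, hπ, hπG, hkp⟩ := hF F Y.m r q rtr face
  obtain ⟨hnSU, -, GF, hGF⟩ := hN Y F
  -- the steps are in the group
  have vUU : ∀ n ∈ hX.Gam, ∀ n' ∈ hX.Gam,
      UU (((ρ.ψ n)⁻¹ * ρ.ψ n' : (Matrix (Fin Y.m) (Fin Y.m) F)ˣ) : Matrix (Fin Y.m) (Fin Y.m) F) := by
    intro n hn n' hn'
    obtain ⟨y, hy, he⟩ := ρ.val n hn n' hn'
    rw [he, ue_val (hnSU y hy)]
    exact ((hL F Y.m).1 y (hnSU y hy)).1
  have hg : ∀ n ∈ hX.Gam, (ρ.ψ 1)⁻¹ * ρ.ψ n ∈ G := by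
    intro n hn
    rw [hG]
    refine ⟨vUU 1 (Subgroup.one_mem _) n hn, fun i l hil hne => ?_⟩
    obtain ⟨z, hz, he⟩ := (hM X hX).2 1 (Subgroup.one_mem _) n hn
    exact ρ.supp 1 (Subgroup.one_mem _) n hn Set.univ z hz he i l hil hne
  let gg : (Matrix (Fin X.m) (Fin X.m) ℝ)ˣ → G := fun n =>
    if h : n ∈ hX.Gam then ⟨(ρ.ψ 1)⁻¹ * ρ.ψ n, hg n h⟩ else 1
  have ggv : ∀ n ∈ hX.Gam, ((gg n : G) : (Matrix (Fin Y.m) (Fin Y.m) F)ˣ) =
      (ρ.ψ 1)⁻¹ * ρ.ψ n := by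
    intro n hn
    simp only [gg, dif_pos hn]
  have ggd : ∀ n ∈ hX.Gam, ∀ n' ∈ hX.Gam,
      (((gg n)⁻¹ * gg n' : G) : (Matrix (Fin Y.m) (Fin Y.m) F)ˣ) = (ρ.ψ n)⁻¹ * ρ.ψ n' := by
    intro n hn n' hn'
    rw [Subgroup.coe_mul, Subgroup.coe_inv, ggv n hn, ggv n' hn']
    group
  -- idempotence
  have ππ : ∀ g : G, π ⟨π g, hπG g⟩ = π g := by
    intro g
    refine Units.ext ?_
    rw [hπ, hπ]
    exact kp_kp q _
  let χG : (Matrix (Fin X.m) (Fin X.m) ℝ)ˣ → G := fun n =>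
    gg n * (⟨π (gg n), hπG (gg n)⟩ : G)⁻¹
  have πχ : ∀ n, π (χG n) = 1 := by
    intro n
    show π (gg n * (⟨π (gg n), hπG (gg n)⟩ : G)⁻¹) = 1
    rw [map_mul, map_inv, ππ, mul_inv_cancel]
  have χd : ∀ n ∈ hX.Gam, ∀ n' ∈ hX.Gam,
      ((χG n : (Matrix (Fin Y.m) (Fin Y.m) F)ˣ))⁻¹ * (χG n' : (Matrix (Fin Y.m) (Fin Y.m) F)ˣ) =
        π (gg n) * ((ρ.ψ n)⁻¹ * ρ.ψ n') * (π (gg n'))⁻¹ := by
    intro n hn n' hn'
    rw [← ggd n hn n' hn']
    show (((gg n * (⟨π (gg n), hπG (gg n)⟩ : G)⁻¹ : G)) : (Matrix (Fin Y.m) (Fin Y.m) F)ˣ)⁻¹ *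
      ((gg n' * (⟨π (gg n'), hπG (gg n')⟩ : G)⁻¹ : G) : (Matrix (Fin Y.m) (Fin Y.m) F)ˣ) = _
    rw [Subgroup.coe_mul, Subgroup.coe_mul, Subgroup.coe_mul, Subgroup.coe_inv, Subgroup.coe_inv,
      Subgroup.coe_inv]
    group
  have πUU : ∀ g : G, UU ((π g : (Matrix (Fin Y.m) (Fin Y.m) F)ˣ) : Matrix (Fin Y.m) (Fin Y.m) F) := by
    intro g
    exact ((hG _).mp (hπG g)).1
  have πq : ∀ (g : G) (i l : Fin Y.m), i < l →
      ((π g : (Matrix (Fin Y.m) (Fin Y.m) F)ˣ) : Matrix (Fin Y.m) (Fin Y.m) F) i l ≠ 0 → q i l := by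
    intro g i l hil hne
    rw [hπ] at hne
    by_contra hq
    refine hne (kp_not q ?_)
    rintro (h | h)
    · exact hil.ne h
    · exact hq h
  -- the gauge factors are exponentials
  have πF : ∀ n ∈ hX.Gam, π (gg n) ∈ GF := by
    intro n hn
    obtain ⟨y, hy, he⟩ := ρ.val 1 (Subgroup.one_mem _) n hn
    have hyS := hnSU y hy
    have h1 : (((gg n : G) : (Matrix (Fin Y.m) (Fin Y.m) F)ˣ) : Matrix (Fin Y.m) (Fin Y.m) F) = mexp y := by
      rw [ggv n hn, he, ue_val hyS]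
    have h2 : Sp r (mexp y) := by
      rw [← h1]
      exact (hG _).mp (gg n).2
    have h3 := (hS F Y.m r rtr).2.2 _ h2
    rw [((hL F Y.m).1 y hyS).2] at h3
    have hpart : part P (0 : X.b →ₗ[ℝ] ℝ) y ∈ Y.nF F := hP Y F X.b P hPb 0 y hy
    rw [hGF]
    refine ⟨part P (0 : X.b →ₗ[ℝ] ℝ) y, hpart, Units.ext ?_⟩
    rw [hπ, h1, hkp y hyS h3.2, ue_val (hnSU _ hpart)]
    congr 1
    exact kp_part P y _ fun a => rfl
  refine ⟨⟨fun n => (χG n : (Matrix (Fin Y.m) (Fin Y.m) F)ˣ), ?_, ?_, ?_⟩⟩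
  · -- val
    intro n hn n' hn'
    rw [χd n hn n' hn', ← hGF]
    exact GF.mul_mem (GF.mul_mem (πF n hn) ((hGF _).mpr (ρ.val n hn n' hn')))
      (GF.inv_mem (πF n' hn'))
  · -- supp
    intro n hn n' hn' Ψ z hz he i l hil hne
    constructor
    · let rΨ : Fin Y.m → Fin Y.m → Prop := fun i k => ∀ a ∈ hX.dual Ψ, 0 ≤ P a i - P a k
      have rΨtr : ∀ i j k, i < j → j < k → rΨ i j → rΨ j k → rΨ i k := by
        intro i j k _ _ h1 h2 a ha
        have := h1 a ha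
        have := h2 a ha
        linarith
      obtain ⟨GΨ, hGΨ⟩ := (hS F Y.m rΨ rΨtr).1
      have h1 : ∀ g : G, π g ∈ GΨ := by
        intro g
        rw [hGΨ]
        exact ⟨πUU g, fun i l hil hne a _ => (πq g i l hil hne a).ge⟩
      have h2 : (ρ.ψ n)⁻¹ * ρ.ψ n' ∈ GΨ := by
        rw [hGΨ]
        exact ⟨vUU n hn n' hn', fun i l hil hne =>
          ρ.supp n hn n' hn' Ψ z hz he i l hil hne⟩
      have h3 : ((χG n : (Matrix (Fin Y.m) (Fin Y.m) F)ˣ))⁻¹ *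
          (χG n' : (Matrix (Fin Y.m) (Fin Y.m) F)ˣ) ∈ GΨ := by
        rw [χd n hn n' hn']
        exact GΨ.mul_mem (GΨ.mul_mem (h1 _) h2) (GΨ.inv_mem (h1 _))
      exact ((hGΨ _).mp h3).2 i l hil hne
    · by_contra hq
      have hq' : q i l := by
        intro a
        by_contra h
        exact hq ⟨a, h⟩
      have h1 : π ((χG n)⁻¹ * χG n') = 1 := by
        rw [map_mul, map_inv, πχ, πχ, inv_one, one_mul]
      have h2 := hπ ((χG n)⁻¹ * χG n')
      rw [h1] at h2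
      have h3 := congrFun (congrFun h2 i) l
      rw [kp_of q (Or.inr hq'), Units.val_one, Matrix.one_apply_ne hil.ne] at h3
      exact hne h3.symm
  · -- nondeg
    intro n hn l x hx h1
    have hn' : n * ue ((x : ℝ) • hX.e l) ∈ hX.Gam :=
      Subgroup.mul_mem _ hn (Subgroup.subset_closure ⟨l, x, rfl⟩)
    obtain ⟨i, k, hik, hne, a, ha⟩ := ρ.nondeg n hn l x hx
    rw [χd n hn _ hn'] at h1
    have h2 : (ρ.ψ n)⁻¹ * ρ.ψ (n * ue ((x : ℝ) • hX.e l)) =
        π ((gg n)⁻¹ * gg (n * ue ((x : ℝ) • hX.e l))) := by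
      rw [map_mul, map_inv]
      have h3 := mul_inv_eq_one.mp h1
      rw [← h3]
      group
    rw [h2] at hne
    exact ha (πq _ i k hik hne a)

end Pool.Agent.QSX.H41
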