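import Pool.Agent.QSX.StmtsA

/-!
# Row GAU of squad QSX: from the vertical flats to the algebraic data over the residue field
-/

set_option autoImplicit false

namespace Pool.Agent.QSX.H41

open Matrix Finset Pool.Agent.QSX

theorem gau (h1 : GaaStmt) (h2 : GabStmt) : GauStmt := by
  intro X Y hX V
  obtain ⟨r⟩ := h1 X Y hX V
  exact h2 X Y hX V.S.FF V.P V.Pb r

end Pool.Agent.QSX.H41
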