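import Pool.Agent.QSX.StmtsG

/-!
# Row MIJ of squad QSX: the coordinates of a point are determined by its matrix
-/

set_option autoImplicit false

namespace Pool.Agent.QSX.H41

open Matrix Finset Pool.Agent.QSX

theorem diag_one_of_UU {m : ℕ} {g : Matrix (Fin m) (Fin m) ℝ} (h : UU g) (i : Fin m) :
    g i i = 1 := by
  have := h i i le_rfl
  rw [Matrix.sub_apply, Matrix.one_apply_eq] at this
  linarith

theorem mat_diag (hL : LgmStmt) (D : Dat) (p : D.Pt) (i : Fin D.m) :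
    ((D.mat p : (Matrix (Fin D.m) (Fin D.m) ℝ)ˣ) : Matrix _ _ ℝ) i i =
      Real.exp ((p.2 : Fin D.m → ℝ) i) := by
  have hsu := D.su _ p.1.2
  unfold Dat.mat
  rw [Units.val_mul, ue_val hsu]
  show (mexp (p.1 : Matrix (Fin D.m) (Fin D.m) ℝ) *
    diagonal fun i => Real.exp ((p.2 : Fin D.m → ℝ) i)) i i = _
  rw [mul_diagonal, diag_one_of_UU ((hL ℝ D.m).1 _ hsu).1, one_mul]

theorem mij (hL : LgmStmt) : MijStmt := by
  intro D p q h
  have hc : (p.2 : Fin D.m → ℝ) = (q.2 : Fin D.m → ℝ) := by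
    funext i
    have h1 := mat_diag hL D p i
    have h2 := mat_diag hL D q i
    rw [h, h2] at h1
    exact (Real.exp_injective h1).symm
  have hue : ue (p.1 : Matrix (Fin D.m) (Fin D.m) ℝ) = ue (q.1 : Matrix (Fin D.m) (Fin D.m) ℝ) := by
    unfold Dat.mat at h
    rw [hc] at h
    exact mul_right_cancel h
  have hm : mexp (p.1 : Matrix (Fin D.m) (Fin D.m) ℝ) =
      mexp (q.1 : Matrix (Fin D.m) (Fin D.m) ℝ) := by
    rw [← ue_val (D.su _ p.1.2), ← ue_val (D.su _ q.1.2), hue]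
  have hx : (p.1 : Matrix (Fin D.m) (Fin D.m) ℝ) = (q.1 : Matrix (Fin D.m) (Fin D.m) ℝ) := by
    rw [← ((hL ℝ D.m).1 _ (D.su _ p.1.2)).2, ← ((hL ℝ D.m).1 _ (D.su _ q.1.2)).2, hm]
  exact Prod.ext (Subtype.ext hx) (Subtype.ext hc)

end Pool.Agent.QSX.H41
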