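import Pool.Agent.QSX.StmtsA

/-!
# Row NRF of squad QSX: a class condition from small entries
-/

set_option autoImplicit false

namespace Pool.Agent.QSX.H41

open Matrix Finset Pool.Agent.QSX

theorem exists_pos_le {α : Type} [Fintype α] (C : α → ℝ) (hC : ∀ i, 0 < C i) :
    ∃ c : ℝ, 0 < c ∧ ∀ i, c ≤ C i := by
  have hs : 0 ≤ ∑ i, (C i)⁻¹ := sum_nonneg fun i _ => (inv_pos.mpr (hC i)).le
  refine ⟨(1 + ∑ i, (C i)⁻¹)⁻¹, by positivity, fun i => ?_⟩
  have h1 : (C i)⁻¹ ≤ 1 + ∑ i, (C i)⁻¹ := by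
    have := single_le_sum (f := fun i => (C i)⁻¹) (fun j _ => (inv_pos.mpr (hC j)).le)
      (mem_univ i)
    linarith
  exact inv_le_of_inv_le₀ (hC i) h1

theorem nrf : NrfStmt := by
  intro S V _ _ m P v hMd hSm a
  classical
  -- the constants
  have hex : ∀ q : Fin m × Fin m, ∃ c : ℝ, 0 < c ∧ (q.1 < q.2 → (∃ a, P a q.1 - P a q.2 ≠ 0) →
      ∀ᶠ s in (S.ω : Filter ℕ), |v s q.1 q.2| ≤ Real.exp (-(c * S.R s))) := by
    intro q
    by_cases h : q.1 < q.2 ∧ ∃ a, P a q.1 - P a q.2 ≠ 0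
    · obtain ⟨c, hc, h'⟩ := hSm q.1 q.2 h.1 h.2
      exact ⟨c, hc, fun _ _ => h'⟩
    · exact ⟨1, one_pos, fun h1 h2 => absurd ⟨h1, h2⟩ h⟩
  choose C hC hC' using hex
  obtain ⟨c, hc, hcC⟩ := exists_pos_le C hC
  set W : ℝ := ∑ q : Fin m × Fin m, |P a q.1 - P a q.2| with hW
  have hW0 : 0 ≤ W := sum_nonneg fun q _ => abs_nonneg _
  have hWle : ∀ i l, |P a i - P a l| ≤ W := by
    intro i l
    exact single_le_sum (f := fun q : Fin m × Fin m => |P a q.1 - P a q.2|)
      (fun q _ => abs_nonneg _) (mem_univ (i, l))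
  have hcW : 0 < c + W := by linarith
  refine ⟨c / (c + W), div_pos hc hcW, (div_le_one hcW).mpr (by linarith), ?_⟩
  set t : ℝ := c / (c + W) with ht
  have ht0 : 0 < t := div_pos hc hcW
  have htW : t * W ≤ c := by
    rw [ht, div_mul_eq_mul_div, div_le_iff₀ hcW]
    nlinarith
  intro ε hε
  have key : ∀ i l : Fin m, ∀ᶠ s in (S.ω : Filter ℕ), i < l →
      |v s i l| ≤ Real.exp (S.R s * (P (t • a) i - P (t • a) l + ε)) := by
    intro i l
    by_cases hil : i < l
    · have hP : P (t • a) i - P (t • a) l = t * (P a i - P a l) := by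
        rw [map_smul, Pi.smul_apply, Pi.smul_apply, smul_eq_mul, smul_eq_mul, mul_sub]
      by_cases h : ∃ a, P a i - P a l ≠ 0
      · filter_upwards [hC' (i, l) hil h, S.ev_R 0] with s hs h0 _
        refine hs.trans (Real.exp_le_exp.2 ?_)
        have h1 : -c ≤ t * (P a i - P a l) := by
          have h2 : -W ≤ P a i - P a l := (abs_le.mp (hWle i l)).1
          nlinarith
        have h3 : -(C (i, l)) ≤ P (t • a) i - P (t • a) l + ε := by
          rw [hP]
          have := hcC (i, l)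
          linarith
        calc -(C (i, l) * S.R s) = S.R s * (-(C (i, l))) := by ring
          _ ≤ S.R s * (P (t • a) i - P (t • a) l + ε) := mul_le_mul_of_nonneg_left h3 h0
      · have h0 : P a i - P a l = 0 := by
          by_contra hne
          exact h ⟨a, hne⟩
        filter_upwards [hMd i l ε hε] with s hs _
        rw [hP, h0, mul_zero, zero_add, mul_comm]
        exact hs
    · exact Filter.Eventually.of_forall fun s h => absurd h hil
  have key2 : ∀ᶠ s in (S.ω : Filter ℕ), ∀ i l : Fin m, i < l →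
      |v s i l| ≤ Real.exp (S.R s * (P (t • a) i - P (t • a) l + ε)) :=
    Filter.eventually_all.mpr fun i => Filter.eventually_all.mpr fun l => key i l
  filter_upwards [key2] with s hs a' ha' i l hil
  rw [Set.mem_singleton_iff] at ha'
  rw [ha']
  exact hs i l hil

end Pool.Agent.QSX.H41
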