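import Pool.Agent.QSX.StmtsA
import Pool.Agent.QSX.StmtsG

/-!
# Row PTF of squad QSX: stability of the extended Lie algebra under the projections to the weights
-/

set_option autoImplicit false

namespace Pool.Agent.QSX.H41

open Matrix Finset Pool.Agent.QSX

open Classical in
theorem part_apply {V : Type} {m : ℕ} {F : Type} [Zero F] (P : V → Fin m → ℝ) (ρ : V → ℝ)
    (x : Matrix (Fin m) (Fin m) F) (i l : Fin m) :
    part P ρ x i l = if ∀ a, P a i - P a l = ρ a then x i l else 0 := rfl

theorem part_add {V : Type} {m : ℕ} {F : Type} [CommRing F] (P : V → Fin m → ℝ) (ρ : V → ℝ)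
    (x y : Matrix (Fin m) (Fin m) F) : part P ρ (x + y) = part P ρ x + part P ρ y := by
  classical
  ext i l
  rw [Matrix.add_apply, part_apply, part_apply, part_apply]
  split_ifs
  · rw [Matrix.add_apply]
  · rw [add_zero]

theorem part_smul {V : Type} {m : ℕ} {F : Type} [CommRing F] (P : V → Fin m → ℝ) (ρ : V → ℝ)
    (c : F) (x : Matrix (Fin m) (Fin m) F) : part P ρ (c • x) = c • part P ρ x := by
  classical
  ext i l
  rw [Matrix.smul_apply, part_apply, part_apply]
  split_ifs
  · rw [Matrix.smul_apply]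
  · rw [smul_zero]

theorem part_zero {V : Type} {m : ℕ} {F : Type} [CommRing F] (P : V → Fin m → ℝ) (ρ : V → ℝ) :
    part P ρ (0 : Matrix (Fin m) (Fin m) F) = 0 := by
  classical
  ext i l
  rw [part_apply]
  split_ifs <;> rfl

theorem part_map {V : Type} {m : ℕ} {F : Type} [CommRing F] [Algebra ℝ F] (P : V → Fin m → ℝ)
    (ρ : V → ℝ) (x : Matrix (Fin m) (Fin m) ℝ) :
    part P ρ (x.map (algebraMap ℝ F)) = (part P ρ x).map (algebraMap ℝ F) := by
  classical
  ext i l
  rw [Matrix.map_apply, part_apply, part_apply]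
  split_ifs
  · rfl
  · exact (map_zero _).symm

theorem ptf (hP : PrtStmt) : PtfStmt := by
  intro Y F _ _ V _ _ _ P hPb ρ x hx
  unfold Dat.nF at hx ⊢
  induction hx using Submodule.span_induction with
  | mem x h =>
    obtain ⟨y, hy, rfl⟩ := h
    refine Submodule.subset_span ⟨part P ρ y, ?_, (part_map P ρ y).symm⟩
    have hy0 : y ∈ Y.nk 0 := ⟨hy, fun i l h => Y.su y hy i l (by
      rw [Fin.le_def]
      omega)⟩
    exact (hP Y V P hPb ρ 0 y hy0).1
  | zero =>
    rw [part_zero]
    exact Submodule.zero_mem _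
  | add x y _ _ hx hy =>
    rw [part_add]
    exact Submodule.add_mem _ hx hy
  | smul c x _ hx =>
    rw [part_smul]
    exact Submodule.smul_mem _ _ hx

end Pool.Agent.QSX.H41
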