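import Pool.Agent.QSX.StmtsG

/-!
# Row PRT of squad QSX: stability under the projections to the weights
-/

set_option autoImplicit false

namespace Pool.Agent.QSX.H41

open Matrix Finset Pool.Agent.QSX

theorem nk_ad (D : Dat) (k : ℕ) (c : Fin D.m → ℝ) (hc : c ∈ D.b)
    (x : Matrix (Fin D.m) (Fin D.m) ℝ) (hx : x ∈ D.nk k) :
    diagonal c * x - x * diagonal c ∈ D.nk k := by
  refine ⟨D.stab c hc x hx.1, fun i l hl => ?_⟩
  rw [Matrix.sub_apply, diagonal_mul, mul_diagonal, hx.2 i l hl, mul_zero, zero_mul, sub_zero]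

theorem prod_mem (D : Dat) (k : ℕ) (c : Fin D.m → ℝ) (hc : c ∈ D.b) (r : ℝ)
    (x : Matrix (Fin D.m) (Fin D.m) ℝ) (hx : x ∈ D.nk k) (s : Finset ℝ) :
    (Matrix.of fun i l => (∏ v ∈ s, ((c i - c l) - v) / (r - v)) * x i l) ∈ D.nk k := by
  classical
  induction s using Finset.induction_on with
  | empty =>
    have : (Matrix.of fun i l => (∏ v ∈ (∅ : Finset ℝ), ((c i - c l) - v) / (r - v)) * x i l) =
        x := by
      ext i l
      simp
    rw [this]
    exact hx
  | insert v s hv ih =>
    set y := (Matrix.of fun i l => (∏ v ∈ s, ((c i - c l) - v) / (r - v)) * x i l) with hy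
    have h1 : (Matrix.of fun i l => (∏ v ∈ insert v s, ((c i - c l) - v) / (r - v)) * x i l) =
        (r - v)⁻¹ • ((diagonal c * y - y * diagonal c) - v • y) := by
      ext i l
      rw [Matrix.of_apply, Finset.prod_insert hv, Matrix.smul_apply, Matrix.sub_apply,
        Matrix.sub_apply, diagonal_mul, mul_diagonal, Matrix.smul_apply, hy, Matrix.of_apply,
        smul_eq_mul, smul_eq_mul]
      ring
    rw [h1]
    exact Submodule.smul_mem _ _ (Submodule.sub_mem _ (nk_ad D k c hc y ih)
      (Submodule.smul_mem _ _ ih))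

theorem prt : PrtStmt := by
  intro D V _ _ _ P hP ρ k x hx
  classical
  -- the bad pairs
  let B : Type := {q : Fin D.m × Fin D.m // ¬ ∀ a, P a q.1 - P a q.2 = ρ a}
  let f : B → Module.Dual ℝ V := fun q =>
    (LinearMap.proj q.1.1 ∘ₗ P) - (LinearMap.proj q.1.2 ∘ₗ P) - ρ
  have hf : ∀ q a, f q a = P a q.1.1 - P a q.1.2 - ρ a := fun q a => rfl
  obtain ⟨a, ha⟩ := Module.Dual.exists_forall_ne_zero_of_forall_exists f (by
    intro q
    obtain ⟨a, ha⟩ := not_forall.mp q.2
    exact ⟨a, by rw [hf]; exact sub_ne_zero.mpr ha⟩)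
  let s : Finset ℝ := (Finset.univ.image
    (fun q : Fin D.m × Fin D.m => P a q.1 - P a q.2)).erase (ρ a)
  have key := prod_mem D k (P a) (hP a) (ρ a) x hx s
  have h1 : part P ρ x =
      (Matrix.of fun i l => (∏ v ∈ s, ((P a i - P a l) - v) / (ρ a - v)) * x i l) := by
    ext i l
    rw [Matrix.of_apply]
    unfold part
    by_cases h : ∀ a, P a i - P a l = ρ a
    · rw [if_pos h]
      have : ∏ v ∈ s, ((P a i - P a l) - v) / (ρ a - v) = 1 := by
        refine prod_eq_one fun v hv => ?_
        rw [h a]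
        have hne : v ≠ ρ a := (Finset.mem_erase.mp hv).1
        exact div_self (sub_ne_zero.mpr (Ne.symm hne))
      rw [this, one_mul]
    · rw [if_neg h]
      have hne : P a i - P a l ≠ ρ a := by
        have := ha ⟨(i, l), h⟩
        rw [hf] at this
        exact sub_ne_zero.mp this
      have hmem : P a i - P a l ∈ s := Finset.mem_erase.mpr
        ⟨hne, Finset.mem_image.mpr ⟨(i, l), mem_univ _, rfl⟩⟩
      rw [Finset.prod_eq_zero hmem (by rw [sub_self, zero_div]), zero_mul]
  rw [h1]
  exact key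

end Pool.Agent.QSX.H41
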